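import Pool.Agent.N176.OW.Stm2

/-!
# Project OW (helper176), task MH: all exponents come from the minimal ones
-/

set_option autoImplicit false

namespace Pool.Agent.N615.OW

open Finset Pool.Agent.N176.OW

lemma deg_trans {b t p q r n : ℕ} (hpq : p ≤ q) (hqr : q ≤ r) (h1 : Deg b t p q n)
    (h2 : Deg b t q r n) : Deg b t p r n := by
  unfold Deg at h1 h2 ⊢
  rw [h2, h1, ← mul_assoc, ← pow_add]
  congr 2
  omega

/-- TASK MH. -/
theorem mh : S_MH := by
  intro b t n T hb hT
  have hsub : hits T b t n ⊆ (mhits T b t n).biUnion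
      (fun p => insert p ((Ioc p t).filter (fun q => Deg b t p q n))) := by
    intro q hq
    have hqT : q ≤ t := hT q (mem_filter.1 hq).1
    obtain ⟨S, hS⟩ : ∃ S : Finset ℕ, S = (hits T b t n).filter
        (fun p => p ≤ q ∧ (p = q ∨ Deg b t p q n)) := ⟨_, rfl⟩
    have hqS : q ∈ S := by
      rw [hS, mem_filter]
      exact ⟨hq, le_refl q, Or.inl rfl⟩
    have hne : S.Nonempty := ⟨q, hqS⟩
    obtain ⟨p, hp⟩ : ∃ p, p = S.min' hne := ⟨_, rfl⟩
    have hpS : p ∈ S := by
      rw [hp]
      exact S.min'_mem hne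
    have hmin : ∀ p' ∈ S, p ≤ p' := by
      intro p' hp'
      rw [hp]
      exact S.min'_le p' hp'
    rw [hS, mem_filter] at hpS
    obtain ⟨hph, hpq, hor⟩ := hpS
    have hm : p ∈ mhits T b t n := by
      unfold mhits
      rw [mem_filter]
      refine ⟨hph, fun p' hp' hlt hdeg => ?_⟩
      have h1 : p' ∈ S := by
        rw [hS, mem_filter]
        refine ⟨hp', by omega, Or.inr ?_⟩
        rcases hor with h | h
        · rw [← h]
          exact hdeg
        · exact deg_trans hlt.le hpq hdeg h
      have h2 := hmin p' h1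
      omega
    rw [mem_biUnion]
    refine ⟨p, hm, ?_⟩
    rw [mem_insert]
    rcases hor with h | h
    · exact Or.inl h.symm
    · rcases Nat.eq_or_lt_of_le hpq with h3 | h3
      · exact Or.inl h3.symm
      · right
        rw [mem_filter, mem_Ioc]
        exact ⟨⟨h3, hqT⟩, h⟩
  refine (card_le_card hsub).trans (card_biUnion_le.trans (sum_le_sum fun p _ => ?_))
  refine (card_insert_le _ _).trans ?_
  unfold run
  omega

end Pool.Agent.N615.OW
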