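import Pool.Agent.N176.OW.Stm2

/-!
# Project OW (helper176), task IT: iteration of conditional bounds over increasing levels
-/

set_option autoImplicit false

namespace Pool.Agent.N615.OW

open Finset Pool.Agent.N176.OW

namespace ITAux

lemma sum_cells (B a c : ℕ) (hac : a ≤ c) (g : ℕ → ℝ) :
    ∑ n ∈ Ico (a * B) (c * B), g n = ∑ m ∈ Ico a c, ∑ r ∈ range B, g (m * B + r) := by
  induction c, hac using Nat.le_induction with
  | base => simp
  | succ c hac ih =>
    rw [Finset.sum_Ico_succ_top hac, ← ih,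
      ← Finset.sum_Ico_consecutive g (Nat.mul_le_mul_right B hac) (Nat.mul_le_mul_right B (Nat.le_succ c))]
    congr 1
    rw [Finset.sum_Ico_eq_sum_range]
    have : (c + 1) * B - c * B = B := by rw [add_mul, one_mul]; omega
    rw [this]

lemma div_level {b : ℕ} (hb : 2 ≤ b) {p t t' m r : ℕ} (hpt : p ≤ t) (htt : t ≤ t')
    (hr : r < b ^ (t' - t)) : (m * b ^ (t' - t) + r) / b ^ (t' - p) = m / b ^ (t - p) := by
  have e : b ^ (t' - p) = b ^ (t' - t) * b ^ (t - p) := by rw [← pow_add]; congr 1; omega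
  have hB : 0 < b ^ (t' - t) := by positivity
  rw [e, ← Nat.div_div_eq_div_mul, Nat.add_div_of_dvd_right (dvd_mul_left _ m), Nat.mul_div_cancel _ hB,
    Nat.div_eq_of_lt hr, add_zero]

end ITAux

open ITAux

/-- TASK IT. -/
theorem it : S_IT := by
  intro b hb τ w E hτ hτ0 hw hE hs j k hj1 hj2
  induction k with
  | zero =>
    unfold cell
    rw [Nat.sub_self, pow_zero, mul_one, mul_one, Nat.Ico_succ_singleton, Finset.sum_singleton]
    simp
  | succ k ih =>
    have hzt : τ 0 ≤ τ k := hτ (Nat.zero_le k)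
    have htt : τ k ≤ τ (k + 1) := hτ (Nat.le_succ k)
    obtain ⟨B, hB⟩ : ∃ B : ℕ, B = b ^ (τ (k + 1) - τ k) := ⟨_, rfl⟩
    have e : b ^ (τ (k + 1) - τ 0) = b ^ (τ k - τ 0) * B := by
      rw [hB, ← pow_add]
      congr 1
      omega
    have er : (b : ℝ) ^ (τ (k + 1) - τ 0) = (b : ℝ) ^ (τ k - τ 0) * B := by
      have h : ((b ^ (τ (k + 1) - τ 0) : ℕ) : ℝ) = ((b ^ (τ k - τ 0) * B : ℕ) : ℝ) := by rw [e]
      push_cast at h
      exact h
    have eB : (b : ℝ) ^ (τ (k + 1) - τ k) = B := by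
      rw [hB]
      push_cast
      rfl
    have h0 : cell b (τ 0) (τ (k + 1)) j =
        Ico (j * b ^ (τ k - τ 0) * B) ((j + 1) * b ^ (τ k - τ 0) * B) := by
      unfold cell
      rw [e, mul_assoc, mul_assoc]
    rw [h0, sum_cells B _ _ (Nat.mul_le_mul_right _ (Nat.le_succ j)), er]
    have hin : ∀ m ∈ Ico (j * b ^ (τ k - τ 0)) ((j + 1) * b ^ (τ k - τ 0)),
        ∑ r ∈ range B, ∏ l ∈ range (k + 1), w l ((m * B + r) / b ^ (τ (k + 1) - τ (l + 1))) ≤
          (∏ l ∈ range k, w l (m / b ^ (τ k - τ (l + 1)))) * (E k * B) := by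
      intro m hm
      rw [mem_Ico] at hm
      have hm1 : 1 ≤ m := by
        have : 1 ≤ j * b ^ (τ k - τ 0) := Nat.mul_pos hj1 (by positivity)
        omega
      have hm2 : m ≤ b ^ (2 * τ k) := by
        have h2 : (j + 1) * b ^ (τ k - τ 0) ≤ b ^ (2 * τ k) := by
          calc (j + 1) * b ^ (τ k - τ 0) ≤ b ^ (2 * τ 0) * b ^ (τ k - τ 0) :=
                Nat.mul_le_mul_right _ hj2
            _ = b ^ (2 * τ 0 + (τ k - τ 0)) := (pow_add _ _ _).symm
            _ ≤ b ^ (2 * τ k) := Nat.pow_le_pow_right (by omega) (by omega)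
        omega
      have hG : ∀ r ∈ range B,
          ∏ l ∈ range (k + 1), w l ((m * B + r) / b ^ (τ (k + 1) - τ (l + 1))) =
          (∏ l ∈ range k, w l (m / b ^ (τ k - τ (l + 1)))) * w k (m * B + r) := by
        intro r hr
        rw [mem_range, hB] at hr
        rw [Finset.prod_range_succ, Nat.sub_self, pow_zero, Nat.div_one]
        congr 1
        refine Finset.prod_congr rfl fun l hl => ?_
        rw [mem_range] at hl
        rw [hB, div_level hb (hτ (by omega)) htt hr]
      rw [Finset.sum_congr rfl hG, ← Finset.mul_sum]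
      refine mul_le_mul_of_nonneg_left ?_ (Finset.prod_nonneg fun l _ => hw l _)
      have h1 := hs k m hm1 hm2
      unfold cell at h1
      rw [← hB, eB, sum_cells B m (m + 1) (Nat.le_succ m), Nat.Ico_succ_singleton,
        Finset.sum_singleton] at h1
      exact h1
    refine (Finset.sum_le_sum hin).trans ?_
    rw [← Finset.sum_mul, Finset.prod_range_succ]
    have h2 : 0 ≤ E k * (B : ℝ) := mul_nonneg (hE k) (Nat.cast_nonneg B)
    have ih' : ∑ m ∈ Ico (j * b ^ (τ k - τ 0)) ((j + 1) * b ^ (τ k - τ 0)),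
        ∏ l ∈ range k, w l (m / b ^ (τ k - τ (l + 1))) ≤
        (∏ l ∈ range k, E l) * (b : ℝ) ^ (τ k - τ 0) := ih
    refine (mul_le_mul_of_nonneg_right ih' h2).trans (le_of_eq ?_)
    ring

end Pool.Agent.N615.OW
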